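import Pool.Agent.TH700.PA.Density
import Mathlib.Analysis.Complex.Exponential
import Mathlib.Tactic

/-!
# Mixtures of labelled samples

The labels of a sample are given by different functions on the `t` parts of the sample. Then no
function of a small class `H` agrees with many labels.
-/

set_option autoImplicit false

open Finset

namespace Pool.Agent.V11163.LR

open Pool.Agent.TH700.PA (Net mixp rand_density card_comp)

variable {X ι : Type} {N t : ℕ}

/-- The number of the samples whose label is given by `h`. -/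
def agr (h : X → Bool) (x : Fin N → X × Bool) : ℕ :=
  (univ.filter (fun i => h (x i).1 = (x i).2)).card

/-- The number of the points at which two functions agree. -/
def pts [Fintype X] (h f : X → Bool) : ℕ := (univ.filter (fun x => h x = f x)).card

/-- The labelled sample. -/
def smp (φ : ι → X → Bool) (P : ι × (Fin N → X)) : Fin N → X × Bool :=
  fun i => (P.2 i, φ P.1 (P.2 i))

section Moment

variable [Fintype X] [Nonempty X]

/-- The exponential moment of the number of agreements. -/
theorem moment (φ : ι → X → Bool) (p : Fin N → Fin t) (τ : Fin t → ι) (h : X → Bool) {L A : ℝ}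
    (hL : 1 ≤ L) (hA : (∑ i, (pts h (φ (τ (p i))) : ℝ)) ≤ A * Fintype.card X) :
    (∑ ξ : Fin t → Fin N → X,
      L ^ agr h (mixp p (smp φ) (fun j => (τ j, ξ j)))) ≤
        ((Fintype.card X : ℝ) ^ N) ^ t * Real.exp ((L - 1) * A) := by
  classical
  have hX : (0 : ℝ) < Fintype.card X := by exact_mod_cast Fintype.card_pos
  obtain ⟨F, hF⟩ : ∃ F : Fin t → Fin N → X → ℝ, F = fun j i x =>
      if p i = j then (if h x = φ (τ j) x then L else 1) else 1 := ⟨_, rfl⟩
  have h1 : ∀ ξ : Fin t → Fin N → X,
      L ^ agr h (mixp p (smp φ) (fun j => (τ j, ξ j))) = ∏ j, ∏ i, F j i (ξ j i) := by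
    intro ξ
    rw [prod_comm]
    have h2 : ∀ i, ∏ j, F j i (ξ j i) =
        if h (ξ (p i) i) = φ (τ (p i)) (ξ (p i) i) then L else 1 := by
      intro i
      rw [hF]
      simp only
      rw [prod_ite_eq]
      simp
    rw [prod_congr rfl fun i _ => h2 i, prod_ite, prod_const_one, mul_one, prod_const]
    rfl
  rw [sum_congr rfl fun ξ _ => h1 ξ, ← Fintype.prod_sum (fun j (y : Fin N → X) => ∏ i, F j i (y i))]
  have h3 : ∀ j, ∑ y : Fin N → X, ∏ i, F j i (y i) = ∏ i, ∑ x, F j i x := fun j =>
    (Fintype.prod_sum (fun i x => F j i x)).symm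
  rw [prod_congr rfl fun j _ => h3 j]
  have h4 : ∀ j i, ∑ x, F j i x ≤ (Fintype.card X : ℝ) *
      Real.exp (if p i = j then (L - 1) * (pts h (φ (τ j)) / Fintype.card X) else 0) := by
    intro j i
    by_cases hij : p i = j
    · rw [if_pos hij, hF]
      simp only [if_pos hij]
      have h5 : ∑ x, (if h x = φ (τ j) x then L else (1 : ℝ)) =
          Fintype.card X + (L - 1) * pts h (φ (τ j)) := by
        have h6 : ∀ x, (if h x = φ (τ j) x then L else (1 : ℝ)) =
            1 + (L - 1) * (if h x = φ (τ j) x then 1 else 0) := by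
          intro x
          split_ifs <;> ring
        rw [sum_congr rfl fun x _ => h6 x, sum_add_distrib, ← mul_sum, sum_const, card_univ,
          nsmul_eq_mul, mul_one, sum_boole]
        rfl
      rw [h5]
      have h7 := Real.add_one_le_exp ((L - 1) * (pts h (φ (τ j)) / Fintype.card X))
      calc (Fintype.card X : ℝ) + (L - 1) * pts h (φ (τ j)) =
          Fintype.card X * ((L - 1) * (pts h (φ (τ j)) / Fintype.card X) + 1) := by
            field_simp
            ring
        _ ≤ _ := mul_le_mul_of_nonneg_left h7 hX.le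
    · rw [if_neg hij, hF]
      simp only [if_neg hij]
      rw [sum_const, card_univ, nsmul_eq_mul, mul_one, Real.exp_zero, mul_one]
  have h8 : ∏ j, ∏ i, ∑ x, F j i x ≤ ∏ j : Fin t, ∏ i : Fin N, ((Fintype.card X : ℝ) *
      Real.exp (if p i = j then (L - 1) * (pts h (φ (τ j)) / Fintype.card X) else 0)) := by
    have hF0 : ∀ j i, 0 ≤ ∑ x, F j i x := by
      intro j i
      refine sum_nonneg fun x _ => ?_
      rw [hF]
      simp only
      split_ifs <;> linarith
    refine prod_le_prod (fun j _ => prod_nonneg fun i _ => hF0 j i) fun j _ => ?_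
    exact prod_le_prod (fun i _ => hF0 j i) fun i _ => h4 j i
  refine h8.trans ?_
  have h9 : ∏ j : Fin t, ∏ i : Fin N, ((Fintype.card X : ℝ) *
      Real.exp (if p i = j then (L - 1) * (pts h (φ (τ j)) / Fintype.card X) else 0)) =
      ((Fintype.card X : ℝ) ^ N) ^ t *
        Real.exp ((L - 1) * ((∑ i, (pts h (φ (τ (p i))) : ℝ)) / Fintype.card X)) := by
    have e1 : ∀ j : Fin t, ∏ i : Fin N, ((Fintype.card X : ℝ) *
      Real.exp (if p i = j then (L - 1) * (pts h (φ (τ j)) / Fintype.card X) else 0)) =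
      (Fintype.card X : ℝ) ^ N * ∏ i : Fin N,
        Real.exp (if p i = j then (L - 1) * (pts h (φ (τ j)) / Fintype.card X) else 0) := by
      intro j
      rw [prod_mul_distrib, prod_const, card_univ, Fintype.card_fin]
    rw [prod_congr rfl fun j _ => e1 j, prod_mul_distrib, prod_const, card_univ, Fintype.card_fin]
    congr 1
    rw [prod_comm]
    have e2 : ∀ i : Fin N, ∏ j : Fin t,
        Real.exp (if p i = j then (L - 1) * (pts h (φ (τ j)) / Fintype.card X) else 0) =
        Real.exp ((L - 1) * (pts h (φ (τ (p i))) / Fintype.card X)) := by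
      intro i
      rw [← Real.exp_sum]
      congr 1
      rw [sum_ite_eq]
      simp
    rw [prod_congr rfl fun i _ => e2 i, ← Real.exp_sum]
    congr 1
    rw [← mul_sum, sum_div]
  rw [h9]
  refine mul_le_mul_of_nonneg_left ?_ (by positivity)
  apply Real.exp_le_exp.2
  refine mul_le_mul_of_nonneg_left ?_ (by linarith)
  rwa [div_le_iff₀ hX]

/-- The tail. -/
theorem tail (φ : ι → X → Bool) (p : Fin N → Fin t) (τ : Fin t → ι) (h : X → Bool) {a η : ℝ}
    (ha0 : 0 ≤ a) (ha : a ≤ 1) (h0 : 0 < η) (h1 : η ≤ 1)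
    (hA : (∑ i, (pts h (φ (τ (p i))) : ℝ)) ≤ ((a + η / 8) * N) * Fintype.card X) :
    ((univ.filter (fun ξ : Fin t → Fin N → X =>
      (a + η) * N ≤ agr h (mixp p (smp φ) (fun j => (τ j, ξ j))))).card : ℝ) ≤
        ((Fintype.card X : ℝ) ^ N) ^ t * Real.exp (- (η ^ 2 * N / 8)) := by
  classical
  obtain ⟨l, hl⟩ : ∃ l, l = η / 4 := ⟨_, rfl⟩
  have hl0 : 0 < l := by rw [hl]; positivity
  have hl1 : |l| ≤ 1 := by
    rw [abs_of_pos hl0, hl]
    linarith
  have hL : 1 ≤ Real.exp l := Real.one_le_exp hl0.le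
  have hm := moment φ p τ h hL hA
  have h2 : ((univ.filter (fun ξ : Fin t → Fin N → X =>
      (a + η) * N ≤ agr h (mixp p (smp φ) (fun j => (τ j, ξ j))))).card : ℝ) *
        Real.exp (l * ((a + η) * N)) ≤ ∑ ξ : Fin t → Fin N → X,
          Real.exp l ^ agr h (mixp p (smp φ) (fun j => (τ j, ξ j))) := by
    rw [← nsmul_eq_mul, ← sum_const]
    refine le_trans (sum_le_sum fun ξ hξ => ?_)
      (sum_le_sum_of_subset_of_nonneg (filter_subset _ _) fun ξ _ _ => by positivity)
    rw [← Real.exp_nat_mul]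
    apply Real.exp_le_exp.2
    have h3 := (mem_filter.1 hξ).2
    rw [mul_comm _ l]
    exact mul_le_mul_of_nonneg_left h3 hl0.le
  have h3 := h2.trans hm
  have h4 : (Real.exp l - 1) * ((a + η / 8) * N) - l * ((a + η) * N) ≤ - (η ^ 2 * N / 8) := by
    have h5 : Real.exp l - 1 ≤ l + l ^ 2 := by
      have := (abs_le.1 (Real.abs_exp_sub_one_sub_id_le hl1)).2
      linarith
    have hN : (0 : ℝ) ≤ N := Nat.cast_nonneg N
    have h6 : (Real.exp l - 1) * ((a + η / 8) * N) ≤ (l + l ^ 2) * ((a + η / 8) * N) :=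
      mul_le_mul_of_nonneg_right h5 (by positivity)
    have h7 : (l + l ^ 2) * (a + η / 8) - l * (a + η) ≤ - (η ^ 2 / 8) := by
      rw [hl]
      have e1 : η ^ 2 * (a + η / 8) ≤ η ^ 2 * (9 / 8) :=
        mul_le_mul_of_nonneg_left (by linarith) (by positivity)
      nlinarith
    have h8 := mul_le_mul_of_nonneg_right h7 hN
    nlinarith
  have h5 : ((Fintype.card X : ℝ) ^ N) ^ t * Real.exp ((Real.exp l - 1) * ((a + η / 8) * N)) ≤
      (((Fintype.card X : ℝ) ^ N) ^ t * Real.exp (- (η ^ 2 * N / 8))) *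
        Real.exp (l * ((a + η) * N)) := by
    rw [mul_assoc, ← Real.exp_add]
    refine mul_le_mul_of_nonneg_left ?_ (by positivity)
    apply Real.exp_le_exp.2
    linarith
  exact le_of_mul_le_mul_right (h3.trans h5) (Real.exp_pos _)

end Moment

end Pool.Agent.V11163.LR
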