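import Pool.Agent.V11163.LR.Junta

/-!
# DNF formulas and read-once tensor networks
-/

set_option autoImplicit false

open Finset

namespace Pool.Agent.V11163.LR

open Pool.Agent.TH700.PA (Net card_fiber)

variable {n : ℕ}

/-- `f` is computed by a DNF formula with `s` terms: a term is a set of literals `(i, b)`, which is
satisfied by `x` if `x i = b` for all its literals. Terms may be repeated or contradictory. -/
def IsDNF (s : ℕ) (f : (Fin n → Bool) → Bool) : Prop :=
  ∃ D : Fin s → Finset (Fin n × Bool), ∀ x, f x = true ↔ ∃ t, ∀ l ∈ D t, x l.1 = l.2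

theorem exists_surj {A : Type} [Fintype A] [Nonempty A] {s : ℕ} (h : Fintype.card A ≤ s) :
    ∃ e : Fin s → A, Function.Surjective e := by
  obtain ⟨j⟩ := Function.Embedding.nonempty_of_card_le (α := A) (β := Fin s)
    (by rwa [Fintype.card_fin])
  exact ⟨Function.invFun j, Function.invFun_surjective j.injective⟩

/-- The number of functions which are computed by DNF formulas with `s` terms. -/
theorem card_dnf (s n : ℕ) :
    Nat.card {f : (Fin n → Bool) → Bool // IsDNF s f} ≤ 4 ^ (n * s) := by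
  classical
  have h1 : Nat.card {f : (Fin n → Bool) → Bool // IsDNF s f} ≤
      Nat.card (Fin s → Finset (Fin n × Bool)) := by
    refine Nat.card_le_card_of_injective (fun f => f.2.choose) fun f f' h => ?_
    apply Subtype.ext
    funext x
    have e1 := f.2.choose_spec x
    have e2 := f'.2.choose_spec x
    simp only at h
    rw [h] at e1
    rw [Bool.eq_iff_iff]
    exact e1.trans e2.symm
  refine h1.trans (le_of_eq ?_)
  rw [Nat.card_eq_fintype_card, Fintype.card_fun, Fintype.card_finset, Fintype.card_prod,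
    Fintype.card_fin, Fintype.card_fin, Fintype.card_bool, mul_comm n 2, pow_mul 2 2 n, ← pow_mul]
  norm_num

/-- Juntas have small DNF formulas. -/
theorem junta_dnf {k s : ℕ} (hn : 1 ≤ n) {f : (Fin n → Bool) → Bool} (hf : IsJunta k f)
    (hs : 2 ^ k ≤ s) : IsDNF s f := by
  classical
  obtain ⟨S, hS, h⟩ := hf
  obtain ⟨e, he⟩ : ∃ e : Fin s → (S → Bool), Function.Surjective e := by
    refine exists_surj ?_
    rw [Fintype.card_fun, Fintype.card_bool, Fintype.card_coe]
    exact (Nat.pow_le_pow_right (by norm_num) hS).trans hs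
  obtain ⟨E, hE⟩ : ∃ E : (S → Bool) → Fin n → Bool, E = fun v i =>
      if hi : i ∈ S then v ⟨i, hi⟩ else false := ⟨_, rfl⟩
  refine ⟨fun t => if f (E (e t)) = true then univ.image (fun i : S => (i.1, e t i)) else univ,
    fun x => ⟨fun hx => ?_, ?_⟩⟩
  · obtain ⟨t, ht⟩ := he (fun i => x i)
    refine ⟨t, ?_⟩
    have h1 : f (E (e t)) = f x := by
      refine h _ _ fun i hi => ?_
      rw [hE, ht]
      simp only
      rw [dif_pos hi]
    dsimp only
    rw [h1, if_pos hx]
    intro l hl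
    obtain ⟨i, -, rfl⟩ := mem_image.1 hl
    rw [ht]
  · rintro ⟨t, ht⟩
    dsimp only at ht
    by_cases h1 : f (E (e t)) = true
    · rw [if_pos h1] at ht
      rw [← h1]
      refine h _ _ fun i hi => ?_
      rw [hE]
      simp only
      rw [dif_pos hi]
      exact ht (i, e t ⟨i, hi⟩) (mem_image.2 ⟨⟨i, hi⟩, mem_univ _, rfl⟩)
    · rw [if_neg h1] at ht
      have e1 := ht (⟨0, hn⟩, true) (mem_univ _)
      have e2 := ht (⟨0, hn⟩, false) (mem_univ _)
      simp only at e1 e2
      rw [e1] at e2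
      exact Bool.noConfusion e2

/-! ### multiplexers -/

section Mux

variable {b q : ℕ} (α : Fin b → Fin n) (δ : Fin q → Fin n)

/-- The multiplexer: the coordinates `α` give an address, and `π` maps the address to the coordinate
which is read. -/
def mux (π : (Fin b → Bool) → Fin q) (x : Fin n → Bool) : Bool := x (δ (π (x ∘ α)))

theorem mux_dnf (π : (Fin b → Bool) → Fin q) {s : ℕ} (hs : 2 ^ b ≤ s) :
    IsDNF s (mux α δ π) := by
  classical
  obtain ⟨e, he⟩ : ∃ e : Fin s → (Fin b → Bool), Function.Surjective e := by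
    refine exists_surj ?_
    rwa [Fintype.card_fun, Fintype.card_bool, Fintype.card_fin]
  refine ⟨fun t => insert (δ (π (e t)), true) (univ.image (fun i : Fin b => (α i, e t i))),
    fun x => ⟨fun hx => ?_, ?_⟩⟩
  · obtain ⟨t, ht⟩ := he (x ∘ α)
    refine ⟨t, fun l hl => ?_⟩
    rw [mem_insert] at hl
    rcases hl with rfl | hl
    · simp only
      rw [ht]
      exact hx
    · obtain ⟨i, -, rfl⟩ := mem_image.1 hl
      rw [ht]
      rfl
  · rintro ⟨t, ht⟩
    have h1 : x ∘ α = e t := by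
      funext i
      exact ht (α i, e t i) (mem_insert_of_mem (mem_image.2 ⟨i, mem_univ _, rfl⟩))
    unfold mux
    rw [h1]
    exact ht _ (mem_insert_self _ _)

/-- Different addresses: half of the points with an address at which the two maps differ. -/
theorem mux_dis (hα : Function.Injective α) (hδ : Function.Injective δ)
    (hαδ : ∀ i j, α i ≠ δ j) (π π' : (Fin b → Bool) → Fin q) :
    2 * (univ.filter (fun x : Fin n → Bool => mux α δ π x ≠ mux α δ π' x)).card =
      (univ.filter (fun c => π c ≠ π' c)).card * 2 ^ (n - b) := by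
  classical
  have h1 : (univ.filter (fun x : Fin n → Bool => π (x ∘ α) ≠ π' (x ∘ α))).card =
      (univ.filter (fun c => π c ≠ π' c)).card * 2 ^ (n - b) := by
    rw [card_eq_sum_card_fiberwise (f := fun x : Fin n → Bool => x ∘ α)
      (t := univ.filter (fun c => π c ≠ π' c)) (fun x hx => by simpa using hx)]
    rw [← smul_eq_mul, ← sum_const]
    refine sum_congr rfl fun c hc => ?_
    have e1 : (univ.filter (fun x : Fin n → Bool => x ∘ α = c)).card = 2 ^ (n - b) := by
      have e0 := card_fiber (U := Bool) hα c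
      rw [Fintype.card_bool] at e0
      convert e0
    rw [← e1]
    congr 1
    ext x
    rw [mem_filter, mem_filter, mem_filter]
    constructor
    · rintro ⟨-, h⟩
      exact ⟨mem_univ _, h⟩
    · rintro ⟨-, h⟩
      refine ⟨⟨mem_univ _, ?_⟩, h⟩
      rw [h]
      exact (mem_filter.1 hc).2
  rw [← h1]
  -- the flip
  obtain ⟨fl, hfl⟩ : ∃ fl : (Fin n → Bool) → Fin n → Bool, fl = fun x =>
      Function.update x (δ (π (x ∘ α))) (!x (δ (π (x ∘ α)))) := ⟨_, rfl⟩
  have hfa : ∀ x, fl x ∘ α = x ∘ α := by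
    intro x
    funext i
    rw [hfl]
    simp only [Function.comp_apply]
    rw [Function.update_of_ne (hαδ _ _)]
  have hf1 : ∀ x, mux α δ π (fl x) = !mux α δ π x := by
    intro x
    unfold mux
    rw [hfa, hfl]
    simp only
    rw [Function.update_self]
  have hf2 : ∀ x, π (x ∘ α) ≠ π' (x ∘ α) → mux α δ π' (fl x) = mux α δ π' x := by
    intro x hx
    unfold mux
    rw [hfa, hfl]
    simp only
    rw [Function.update_of_ne (fun h => hx (hδ h).symm)]
  have hff : ∀ x, fl (fl x) = x := by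
    intro x
    have e1 : fl (fl x) = Function.update (fl x) (δ (π (fl x ∘ α))) (!fl x (δ (π (fl x ∘ α)))) := by
      rw [hfl]
    have e2 : fl x = Function.update x (δ (π (x ∘ α))) (!x (δ (π (x ∘ α)))) := by rw [hfl]
    rw [e1, hfa, e2, Function.update_self, Bool.not_not, Function.update_idem,
      Function.update_eq_self]
  have h2 : (univ.filter (fun x : Fin n → Bool => mux α δ π x ≠ mux α δ π' x)).card =
      (univ.filter (fun x : Fin n → Bool => π (x ∘ α) ≠ π' (x ∘ α) ∧
        mux α δ π x ≠ mux α δ π' x)).card := by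
    congr 1
    refine filter_congr fun x _ => ?_
    constructor
    · intro h
      refine ⟨fun h' => h ?_, h⟩
      unfold mux
      rw [h']
    · exact fun h => h.2
  have h3 : (univ.filter (fun x : Fin n → Bool => π (x ∘ α) ≠ π' (x ∘ α) ∧
        mux α δ π x ≠ mux α δ π' x)).card =
      (univ.filter (fun x : Fin n → Bool => π (x ∘ α) ≠ π' (x ∘ α) ∧
        mux α δ π x = mux α δ π' x)).card := by
    refine card_bij' (fun x _ => fl x) (fun x _ => fl x) (fun x hx => ?_) (fun x hx => ?_)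
      (fun x _ => hff x) (fun x _ => hff x)
    · obtain ⟨-, e1, e2⟩ := mem_filter.1 hx
      refine mem_filter.2 ⟨mem_univ _, by rw [hfa]; exact e1, ?_⟩
      rw [hf1, hf2 x e1]
      revert e2
      cases mux α δ π x <;> cases mux α δ π' x <;> simp
    · obtain ⟨-, e1, e2⟩ := mem_filter.1 hx
      refine mem_filter.2 ⟨mem_univ _, by rw [hfa]; exact e1, ?_⟩
      rw [hf1, hf2 x e1, e2]
      cases mux α δ π' x <;> simp
  have h4 : (univ.filter (fun x : Fin n → Bool => π (x ∘ α) ≠ π' (x ∘ α))).card =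
      (univ.filter (fun x : Fin n → Bool => π (x ∘ α) ≠ π' (x ∘ α) ∧
        mux α δ π x ≠ mux α δ π' x)).card +
      (univ.filter (fun x : Fin n → Bool => π (x ∘ α) ≠ π' (x ∘ α) ∧
        mux α δ π x = mux α δ π' x)).card := by
    rw [← card_union_of_disjoint]
    · congr 1
      ext x
      simp only [mem_filter, mem_univ, true_and, mem_union]
      tauto
    · rw [disjoint_left]
      intro x hx hx'
      exact (mem_filter.1 hx).2.2 (mem_filter.1 hx').2.2
  rw [h2, h4]
  omega

/-- Two functions which `h` agrees with often are close. -/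
theorem pts_add (h f f' : (Fin n → Bool) → Bool) :
    pts h f + pts h f' + (univ.filter (fun x => f x ≠ f' x)).card ≤ 2 * 2 ^ n := by
  classical
  unfold pts
  have e0 : 2 * 2 ^ n = ∑ _x : Fin n → Bool, 2 := by
    rw [sum_const, card_univ, Fintype.card_fun, Fintype.card_bool, Fintype.card_fin, smul_eq_mul,
      mul_comm]
  rw [e0, card_filter, card_filter, card_filter, ← sum_add_distrib, ← sum_add_distrib]
  refine sum_le_sum fun x _ => ?_
  cases h x <;> cases f x <;> cases f' x <;> simp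

/-- The pairs of maps which agree often. -/
theorem card_close {A : Type} [Fintype A] [DecidableEq A] {m' q : ℕ} (hA : Fintype.card A = 2 * m')
    (hm : 1 ≤ m') :
    Nat.card {P : (A → Fin q) × (A → Fin q) //
      ¬ (2 * m' ≤ 2 * Nat.card {c : A // P.1 c ≠ P.2 c})} * (q / 4) ^ m' ≤
        Fintype.card (A → Fin q) ^ 2 := by
  classical
  rw [Nat.card_eq_fintype_card, Fintype.card_subtype]
  have h1 : univ.filter (fun P : (A → Fin q) × (A → Fin q) =>
      ¬ (2 * m' ≤ 2 * Nat.card {c : A // P.1 c ≠ P.2 c})) ⊆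
      (powersetCard m' (univ : Finset A)).biUnion (fun S =>
        univ.filter (fun P : (A → Fin q) × (A → Fin q) => ∀ c ∈ S, P.1 c = P.2 c)) := by
    intro P hP
    have e1 := (mem_filter.1 hP).2
    rw [Nat.card_eq_fintype_card, Fintype.card_subtype] at e1
    have e2 : (univ.filter (fun c : A => P.1 c = P.2 c)).card +
        (univ.filter (fun c : A => P.1 c ≠ P.2 c)).card = 2 * m' := by
      rw [← hA, ← card_univ]
      exact card_filter_add_card_filter_not _
    have e3 : m' ≤ (univ.filter (fun c : A => P.1 c = P.2 c)).card := by omega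
    obtain ⟨S, hS, hSc⟩ := exists_subset_card_eq e3
    rw [mem_biUnion]
    exact ⟨S, mem_powersetCard.2 ⟨subset_univ _, hSc⟩, mem_filter.2 ⟨mem_univ _, fun c hc =>
      (mem_filter.1 (hS hc)).2⟩⟩
  have h2 : ∀ S ∈ powersetCard m' (univ : Finset A),
      (univ.filter (fun P : (A → Fin q) × (A → Fin q) => ∀ c ∈ S, P.1 c = P.2 c)).card ≤
        q ^ (2 * m') * q ^ m' := by
    intro S hS
    have e1 : (univ.filter (fun P : (A → Fin q) × (A → Fin q) => ∀ c ∈ S, P.1 c = P.2 c)).card ≤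
        Fintype.card ((A → Fin q) × ({c // c ∉ S} → Fin q)) := by
      rw [← card_univ]
      refine card_le_card_of_injOn (fun P => (P.1, fun c => P.2 c.1)) (fun _ _ => mem_coe.2
        (mem_univ _)) (fun P hP P' hP' h => ?_)
      have g1 := congrArg Prod.fst h
      have g2 := congrArg Prod.snd h
      simp only at g1 g2
      refine Prod.ext g1 (funext fun c => ?_)
      by_cases hc : c ∈ S
      · rw [← (mem_filter.1 hP).2 c hc, ← (mem_filter.1 hP').2 c hc, g1]
      · exact congrFun g2 ⟨c, hc⟩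
    refine e1.trans (le_of_eq ?_)
    rw [Fintype.card_prod, Fintype.card_fun, Fintype.card_fun, Fintype.card_fin, hA]
    congr 2
    have e2 : Fintype.card {c // c ∉ S} = Fintype.card A - S.card := by
      rw [Fintype.card_subtype_compl, Fintype.card_coe]
    rw [e2, hA, (mem_powersetCard.1 hS).2]
    omega
  have h3 : (univ.filter (fun P : (A → Fin q) × (A → Fin q) =>
      ¬ (2 * m' ≤ 2 * Nat.card {c : A // P.1 c ≠ P.2 c}))).card ≤
        2 ^ (2 * m') * (q ^ (2 * m') * q ^ m') := by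
    refine (card_le_card h1).trans (card_biUnion_le.trans ((sum_le_sum h2).trans ?_))
    rw [sum_const, smul_eq_mul]
    refine Nat.mul_le_mul_right _ ?_
    rw [card_powersetCard, card_univ, hA]
    exact Nat.choose_le_two_pow _ _
  refine (Nat.mul_le_mul_right _ h3).trans ?_
  rw [Fintype.card_fun, Fintype.card_fin, hA]
  calc 2 ^ (2 * m') * (q ^ (2 * m') * q ^ m') * (q / 4) ^ m' =
      (4 * (q / 4)) ^ m' * (q ^ (2 * m') * q ^ m') := by
        rw [mul_pow, pow_mul 2 2 m']
        ring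
    _ ≤ q ^ m' * (q ^ (2 * m') * q ^ m') :=
        Nat.mul_le_mul_right _ (Nat.pow_le_pow_left (Nat.mul_div_le q 4) _)
    _ = _ := by
        rw [← pow_mul, ← pow_add, ← pow_add]
        congr 1
        omega

end Mux

theorem small_aux {κ N : ℕ} (hκ : κ = 2048) {u : ℝ} (h : u ^ κ ≤ 2 ^ N) :
    u ≤ Real.exp ((1 / ((16 : ℕ) : ℝ)) ^ 2 * N / 8) := by
  have e3 : (2 : ℝ) ^ N ≤ Real.exp ((1 / ((16 : ℕ) : ℝ)) ^ 2 * N / 8) ^ κ := by
    rw [← Real.exp_nat_mul]
    have e4 : (κ : ℝ) * ((1 / ((16 : ℕ) : ℝ)) ^ 2 * N / 8) = N * 1 := by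
      rw [hκ]
      push_cast
      ring
    rw [e4, Real.exp_nat_mul]
    refine pow_le_pow_left₀ (by norm_num) ?_ _
    have := Real.add_one_le_exp (1 : ℝ)
    linarith
  exact le_of_pow_le_pow_left₀ (n := κ) (by omega) (Real.exp_pos _).le (h.trans e3)

/-- The lower bound for multiplexers. -/
theorem lower_mux : ∃ Γ : ℕ, ∀ s n N : ℕ, 4 ≤ s → 2 * Nat.log 2 s ≤ n →
    ∀ H : Finset ((Fin n → Bool) → Bool),
      (2 * (H.card + 1) * n ^ s) ^ 2048 ≤ 2 ^ N →
      ∀ (μ : ℕ) (Ω : Type) [Fintype Ω] [Nonempty Ω] (K W : Ω → Type) [∀ ρ, Field (K ρ)]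
        [∀ ρ, Fintype (W ρ)] (T : ∀ ρ, Net (K ρ) (Fin N) ((Fin n → Bool) × Bool) (W ρ))
        (a : ∀ ρ, W ρ → K ρ),
        (∀ ρ i, (T ρ).reads i ≤ 1) →
        (∀ ρ x, (∀ h ∈ H, 16 * agr h x < 15 * N) → (T ρ).value (a ρ) x = 0) →
        (∀ f, IsDNF s f → ∀ x : Fin N → (Fin n → Bool) × Bool, (∀ i, (x i).2 = f (x i).1) →
          Nat.card Ω ≤ 2 ^ μ * Nat.card {ρ // (T ρ).value (a ρ) x ≠ 0}) →
        ∃ ρ, (n / 8) ^ (s / 4) ≤ (Γ * 2 ^ μ * Fintype.card (W ρ)) ^ Γ := by
  classical
  refine ⟨2 ^ 13, fun s n N hs hsn H hN μ Ω _ _ K W _ _ T a h1 hno hyes => ?_⟩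
  obtain ⟨b, hb⟩ : ∃ b, b = Nat.log 2 s := ⟨_, rfl⟩
  rw [← hb] at hsn
  have hs0 : s ≠ 0 := by omega
  have hbs : 2 ^ b ≤ s := by rw [hb]; exact Nat.pow_log_le_self 2 hs0
  have hsb : s < 2 ^ (b + 1) := by rw [hb]; exact Nat.lt_pow_succ_log_self (by norm_num) s
  have hb2 : 2 ≤ b := by
    rw [hb]
    have : Nat.log 2 4 ≤ Nat.log 2 s := Nat.log_mono_right hs
    have h4 : Nat.log 2 4 = 2 := by
      rw [show (4 : ℕ) = 2 ^ 2 by norm_num, Nat.log_pow (by norm_num)]
    omega
  obtain ⟨m', hm'⟩ : ∃ m', m' = 2 ^ (b - 1) := ⟨_, rfl⟩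
  have hm1 : 1 ≤ m' := by rw [hm']; exact Nat.one_le_two_pow
  have hbm : 2 ^ b = 2 * m' := by
    rw [hm', ← pow_succ']
    congr 1
    omega
  obtain ⟨q, hq⟩ : ∃ q, q = n - b := ⟨_, rfl⟩
  have hn1 : 1 ≤ n := by omega
  have hq1 : 1 ≤ q := by omega
  obtain ⟨α, hα⟩ : ∃ α : Fin b → Fin n, α = fun i => ⟨i.1, by omega⟩ := ⟨_, rfl⟩
  obtain ⟨δ, hδ⟩ : ∃ δ : Fin q → Fin n, δ = fun i => ⟨b + i.1, by omega⟩ := ⟨_, rfl⟩
  have hαi : Function.Injective α := by
    intro i j h
    rw [hα] at h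
    exact Fin.ext (Fin.mk.inj h)
  have hδi : Function.Injective δ := by
    intro i j h
    rw [hδ] at h
    have := Fin.mk.inj h
    exact Fin.ext (by omega)
  have hαδ : ∀ i j, α i ≠ δ j := by
    intro i j h
    rw [hα, hδ] at h
    have := Fin.mk.inj h
    omega
  let ι := (Fin b → Bool) → Fin q
  have : Nonempty (Fin q) := ⟨⟨0, hq1⟩⟩
  have : Nonempty ι := inferInstance
  obtain ⟨M, hM⟩ : ∃ M, M = (q / 4) ^ m' := ⟨_, rfl⟩
  have hA : Fintype.card (Fin b → Bool) = 2 * m' := by
    rw [Fintype.card_fun, Fintype.card_bool, Fintype.card_fin, hbm]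
  have hMn : M ≤ n ^ s := by
    rw [hM]
    calc (q / 4) ^ m' ≤ n ^ m' := Nat.pow_le_pow_left (by omega) _
      _ ≤ n ^ s := Nat.pow_le_pow_right hn1 (by omega)
  have hns1 : 1 ≤ n ^ s := Nat.one_le_pow _ _ hn1
  obtain ⟨κ, hκ⟩ : ∃ κ, κ = 2048 := ⟨_, rfl⟩
  rw [← hκ] at hN
  have hN256 : 256 ≤ N := by
    have e1 : 2 ^ κ ≤ 2 ^ N := by
      refine le_trans (Nat.pow_le_pow_left ?_ _) hN
      calc 2 = 2 * 1 * 1 := by norm_num
        _ ≤ _ := Nat.mul_le_mul (Nat.mul_le_mul_left _ (by omega)) hns1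
    have e2 := (Nat.pow_le_pow_iff_right (by norm_num)).1 e1
    omega
  have hsmall : 2 * (H.card : ℝ) * M ≤ Real.exp ((1 / ((16 : ℕ) : ℝ)) ^ 2 * N / 8) := by
    refine small_aux hκ ?_
    have e2 : (2 * H.card * M) ^ κ ≤ 2 ^ N := by
      refine le_trans (Nat.pow_le_pow_left ?_ _) hN
      exact Nat.mul_le_mul (Nat.mul_le_mul_left _ (by omega)) hMn
    exact_mod_cast e2
  obtain ⟨ρ, hρ⟩ := general (N := N) (ι := ι) (fun π => mux α δ π)
    (fun π π' => 2 * m' ≤ 2 * Nat.card {c : Fin b → Bool // π c ≠ π' c})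
    (fun π h => by
      have e1 : Nat.card {c : Fin b → Bool // π c ≠ π c} = 0 := by
        rw [Nat.card_eq_zero]
        exact Or.inl ⟨fun c => c.2 rfl⟩
      rw [e1] at h
      omega) H (a := 7 / 8) (by norm_num) (by norm_num) (R0 := 1) (e := 16) (by norm_num) le_rfl
    (fun h _ J hJ1 hJ2 => by
      by_contra hcon
      rw [not_le, one_lt_card] at hcon
      obtain ⟨π, hπ, π', hπ', hne⟩ := hcon
      have e1 := hJ1 π hπ π' hπ' hne
      have e2 := hJ2 π hπ
      have e3 := hJ2 π' hπ'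
      have e4 := mux_dis α δ hαi hδi hαδ π π'
      have e5 := pts_add h (mux α δ π) (mux α δ π')
      rw [Nat.card_eq_fintype_card, Fintype.card_subtype] at e1
      have e6 : 2 * m' * 2 ^ (n - b) = 2 ^ n := by
        rw [← hbm, ← pow_add]
        congr 1
        omega
      obtain ⟨D, hD⟩ : ∃ D, D = (univ.filter (fun x : Fin n → Bool =>
        mux α δ π x ≠ mux α δ π' x)).card := ⟨_, rfl⟩
      obtain ⟨c, hc⟩ : ∃ c, c = (univ.filter (fun c : Fin b → Bool => π c ≠ π' c)).card :=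
        ⟨_, rfl⟩
      rw [← hc] at e1 e4
      rw [← hD] at e4 e5
      have e7 : 2 ^ n ≤ 4 * D := by
        calc 2 ^ n = 2 * m' * 2 ^ (n - b) := e6.symm
          _ ≤ 2 * c * 2 ^ (n - b) := Nat.mul_le_mul_right _ e1
          _ = 2 * (c * 2 ^ (n - b)) := by ring
          _ = 4 * D := by rw [← e4]; ring
      rw [Fintype.card_fun, Fintype.card_bool, Fintype.card_fin] at e2 e3
      push_cast at e2 e3
      have e8 : ((pts h (mux α δ π) : ℝ) + pts h (mux α δ π')) + D ≤ 2 * 2 ^ n := by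
        exact_mod_cast e5
      have e9 : (2 : ℝ) ^ n ≤ 4 * D := by exact_mod_cast e7
      linarith)
    (M := M) (by
      rw [hM]
      exact card_close hA hm1)
    (by omega) hsmall μ Ω K W T a h1
    (fun ρ x hx => hno ρ x fun h hh => by
      have e1 := hx h hh
      have e3 : (16 * agr h x : ℝ) < 15 * N := by
        push_cast at e1
        linarith
      exact_mod_cast e3)
    (fun P => hyes (mux α δ P.1) (mux_dnf α δ P.1 hbs) _ fun _ => rfl)
  refine ⟨ρ, ?_⟩
  obtain ⟨w, hw⟩ : ∃ w, w = Fintype.card (W ρ) := ⟨_, rfl⟩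
  rw [← hw] at hρ ⊢
  have e1 : (n / 8) ^ (s / 4) ≤ M := by
    rw [hM]
    rcases Nat.eq_zero_or_pos (n / 8) with h0 | h0
    · rw [h0, zero_pow (by omega)]
      exact Nat.zero_le _
    · calc (n / 8) ^ (s / 4) ≤ (n / 8) ^ m' := Nat.pow_le_pow_right h0 (by
            have : 2 ^ (b + 1) = 4 * m' := by rw [pow_succ, hbm]; ring
            omega)
        _ ≤ (q / 4) ^ m' := Nat.pow_le_pow_left (by omega) _
  refine e1.trans (hρ.trans ?_)
  have e2 : 2 ^ 8 * 16 * 1 * (2 ^ μ * w) ≤ 2 ^ 13 * 2 ^ μ * w := by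
    calc 2 ^ 8 * 16 * 1 * (2 ^ μ * w) = 2 ^ 12 * (2 ^ μ * w) := by ring
      _ ≤ 2 ^ 13 * (2 ^ μ * w) := Nat.mul_le_mul_right _ (by norm_num)
      _ = _ := by ring
  exact Nat.pow_le_pow_left e2 _

end Pool.Agent.V11163.LR
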