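import Pool.Agent.V11163.LR.Parity
import Pool.Agent.TH700.PA.GameTight

/-!
# Balanced juntas and read-once tensor networks
-/

set_option autoImplicit false

open Finset

namespace Pool.Agent.V11163.LR

open Pool.Agent.TH700.PA (Net exists_product)

variable {n : ℕ}

/-- `f` depends on at most `k` coordinates. -/
def IsJunta (k : ℕ) (f : (Fin n → Bool) → Bool) : Prop :=
  ∃ S : Finset (Fin n), S.card ≤ k ∧ ∀ x y, (∀ i ∈ S, x i = y i) → f x = f y

/-- `f` is `c`-balanced: if at most `c` coordinates are fixed then `f` still takes both values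
equally often. -/
def Balanced (c : ℕ) (f : (Fin n → Bool) → Bool) : Prop :=
  ∀ (T : Finset (Fin n)) (y : Fin n → Bool), T.card ≤ c →
    2 * Nat.card {x : Fin n → Bool // (∀ i ∈ T, x i = y i) ∧ f x = true} =
      Nat.card {x : Fin n → Bool // ∀ i ∈ T, x i = y i}

theorem par_junta (S : Finset (Fin n)) : IsJunta S.card (par S) := by
  refine ⟨S, le_rfl, fun x y h => ?_⟩
  unfold par
  have h1 : S.filter (fun i => x i = true) = S.filter (fun i => y i = true) :=
    filter_congr fun i hi => by rw [h i hi]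
  rw [h1]

theorem par_flip {S : Finset (Fin n)} {i : Fin n} (hi : i ∈ S) (x : Fin n → Bool) :
    par S (Function.update x i (!x i)) = !par S x := by
  classical
  have h1 : sg (par S (Function.update x i (!x i))) = - sg (par S x) := by
    rw [sg_par, sg_par, ← mul_prod_erase S _ hi, ← mul_prod_erase S (fun j => sg (x j)) hi,
      Function.update_self]
    have h2 : ∏ j ∈ S.erase i, sg (Function.update x i (!x i) j) = ∏ j ∈ S.erase i, sg (x j) := by
      refine prod_congr rfl fun j hj => ?_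
      rw [Function.update_of_ne (ne_of_mem_erase hj)]
    rw [h2, neg_mul_eq_neg_mul]
    congr 1
    cases x i <;> norm_num [sg]
  revert h1
  cases par S (Function.update x i (!x i)) <;> cases par S x <;> norm_num [sg]

theorem par_balanced {S : Finset (Fin n)} {c : ℕ} (hc : c < S.card) : Balanced c (par S) := by
  classical
  intro T y hT
  obtain ⟨i, hi, hiT⟩ : ∃ i ∈ S, i ∉ T := by
    by_contra hcon
    push Not at hcon
    have := card_le_card hcon
    omega
  rw [Nat.card_eq_fintype_card, Nat.card_eq_fintype_card, Fintype.card_subtype,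
    Fintype.card_subtype]
  have h1 : (univ.filter (fun x : Fin n → Bool => ∀ i ∈ T, x i = y i)).card =
      (univ.filter (fun x : Fin n → Bool => (∀ i ∈ T, x i = y i) ∧ par S x = true)).card +
      (univ.filter (fun x : Fin n → Bool => (∀ i ∈ T, x i = y i) ∧ par S x = false)).card := by
    rw [← card_union_of_disjoint]
    · congr 1
      ext x
      simp only [mem_filter, mem_univ, true_and, mem_union]
      cases par S x <;> simp
    · rw [disjoint_left]
      intro x hx hx'
      have e1 := (mem_filter.1 hx).2.2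
      have e2 := (mem_filter.1 hx').2.2
      rw [e1] at e2
      exact Bool.noConfusion e2
  have h2 : (univ.filter (fun x : Fin n → Bool => (∀ i ∈ T, x i = y i) ∧ par S x = true)).card =
      (univ.filter (fun x : Fin n → Bool => (∀ i ∈ T, x i = y i) ∧ par S x = false)).card := by
    have h3 : ∀ x : Fin n → Bool, (∀ j ∈ T, x j = y j) →
        ∀ j ∈ T, Function.update x i (!x i) j = y j := by
      intro x hx j hj
      have hne : j ≠ i := by
        rintro rfl
        exact hiT hj
      rw [Function.update_of_ne hne]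
      exact hx j hj
    have h4 : ∀ x : Fin n → Bool, Function.update (Function.update x i (!x i)) i
        (!(Function.update x i (!x i)) i) = x := by
      intro x
      rw [Function.update_idem, Function.update_self, Bool.not_not, Function.update_eq_self]
    refine card_bij' (fun x _ => Function.update x i (!x i)) (fun x _ => Function.update x i (!x i))
      (fun x hx => ?_) (fun x hx => ?_) (fun x _ => h4 x) (fun x _ => h4 x)
    · obtain ⟨-, e1, e2⟩ := mem_filter.1 hx
      exact mem_filter.2 ⟨mem_univ _, h3 x e1, by rw [par_flip hi, e2]; rfl⟩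
    · obtain ⟨-, e1, e2⟩ := mem_filter.1 hx
      exact mem_filter.2 ⟨mem_univ _, h3 x e1, by rw [par_flip hi, e2]; rfl⟩
  omega

/-- The number of juntas. -/
theorem card_juntas {K n : ℕ} (hK : K ≤ n) :
    Nat.card {f : (Fin n → Bool) → Bool // IsJunta K f} ≤ n.choose K * 2 ^ 2 ^ K := by
  classical
  rw [Nat.card_eq_fintype_card, Fintype.card_subtype]
  have h1 : univ.filter (fun f : (Fin n → Bool) → Bool => IsJunta K f) ⊆
      (powersetCard K (univ : Finset (Fin n))).biUnion (fun S =>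
        univ.image (fun (g : (S → Bool) → Bool) (x : Fin n → Bool) => g (fun i => x i))) := by
    intro f hf
    obtain ⟨S0, hS0, h⟩ := (mem_filter.1 hf).2
    obtain ⟨S, hS, hSc⟩ := exists_superset_card_eq (s := S0) hS0 (by
      rw [Fintype.card_fin]; exact hK)
    rw [mem_biUnion]
    refine ⟨S, mem_powersetCard.2 ⟨subset_univ _, hSc⟩, mem_image.2
      ⟨fun z => f (fun i => if hi : i ∈ S then z ⟨i, hi⟩ else false), mem_univ _, ?_⟩⟩
    funext x
    refine h _ _ fun i hi => ?_
    rw [dif_pos (hS hi)]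
  refine (card_le_card h1).trans (card_biUnion_le.trans ?_)
  calc _ ≤ ∑ _S ∈ powersetCard K (univ : Finset (Fin n)), 2 ^ 2 ^ K := by
        refine sum_le_sum fun S hS => card_image_le.trans (le_of_eq ?_)
        rw [card_univ, Fintype.card_fun, Fintype.card_fun, Fintype.card_bool, Fintype.card_coe,
          (mem_powersetCard.1 hS).2]
    _ = _ := by rw [sum_const, card_powersetCard, card_univ, Fintype.card_fin, smul_eq_mul]

/-- The lower bound for parities. -/
theorem lower_parity : ∃ Γ : ℕ, ∀ g k n N : ℕ, 1 ≤ g → k ≤ n →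
    ∀ H : Finset ((Fin n → Bool) → Bool),
      (2 ^ g * (H.card + 1) * n.choose k) ^ (32 * g ^ 2) ≤ 2 ^ N →
      ∀ (μ : ℕ) (Ω : Type) [Fintype Ω] [Nonempty Ω] (K W : Ω → Type) [∀ ρ, Field (K ρ)]
        [∀ ρ, Fintype (W ρ)] (T : ∀ ρ, Net (K ρ) (Fin N) ((Fin n → Bool) × Bool) (W ρ))
        (a : ∀ ρ, W ρ → K ρ),
        (∀ ρ i, (T ρ).reads i ≤ 1) →
        (∀ ρ x, (∀ h ∈ H, 2 * g * agr h x < (g + 2) * N) → (T ρ).value (a ρ) x = 0) →
        (∀ S : Finset (Fin n), S.card = k → ∀ x : Fin N → (Fin n → Bool) × Bool,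
          (∀ i, (x i).2 = par S (x i).1) →
          Nat.card Ω ≤ 2 ^ μ * Nat.card {ρ // (T ρ).value (a ρ) x ≠ 0}) →
        ∃ ρ, n.choose k ≤ (Γ * g * 2 ^ μ * Fintype.card (W ρ)) ^ (Γ * g ^ 3) := by
  classical
  refine ⟨2 ^ 12, fun g k n N hg hkn H hN μ Ω _ _ K W _ _ T a h1 hno hyes => ?_⟩
  have hg0 : (0 : ℝ) < g := by exact_mod_cast hg
  obtain ⟨C, hC⟩ : ∃ C, C = n.choose k := ⟨_, rfl⟩
  rw [← hC] at hN ⊢
  have hC1 : 1 ≤ C := by rw [hC]; exact Nat.choose_pos hkn
  let ι := {S : Finset (Fin n) // S.card = k}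
  have hιc : Fintype.card ι = C := by
    rw [Fintype.card_subtype, hC]
    have := card_powersetCard k (univ : Finset (Fin n))
    rw [card_univ, Fintype.card_fin] at this
    rw [← this]
    congr 1
    ext S
    rw [mem_powersetCard, mem_filter]
    exact ⟨fun h => ⟨subset_univ _, h.2⟩, fun h => ⟨mem_univ _, h.2⟩⟩
  have : Nonempty ι := Fintype.card_pos_iff.1 (by rw [hιc]; exact hC1)
  -- the number of samples
  have hg3 : 32 * g ^ 3 ≤ N := by
    have e1 : (2 ^ g) ^ (32 * g ^ 2) ≤ 2 ^ N := by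
      refine le_trans (Nat.pow_le_pow_left ?_ _) hN
      calc 2 ^ g = 2 ^ g * 1 * 1 := by ring
        _ ≤ _ := Nat.mul_le_mul (Nat.mul_le_mul_left _ (by omega)) hC1
    rw [← pow_mul] at e1
    have e2 := (Nat.pow_le_pow_iff_right (by norm_num)).1 e1
    calc 32 * g ^ 3 = g * (32 * g ^ 2) := by ring
      _ ≤ N := e2
  have hsmall : 2 * (H.card : ℝ) * C ≤ Real.exp ((1 / ((2 * g : ℕ) : ℝ)) ^ 2 * N / 8) := by
    have e1 : (2 * (H.card : ℝ) * C) ^ (32 * g ^ 2) ≤ 2 ^ N := by
      have e2 : (2 * H.card * C) ^ (32 * g ^ 2) ≤ 2 ^ N := by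
        refine le_trans (Nat.pow_le_pow_left ?_ _) hN
        refine Nat.mul_le_mul_right _ (Nat.mul_le_mul ?_ (by omega))
        exact Nat.le_self_pow (by omega) 2
      exact_mod_cast e2
    have e3 : (2 : ℝ) ^ N ≤ Real.exp ((1 / ((2 * g : ℕ) : ℝ)) ^ 2 * N / 8) ^ (32 * g ^ 2) := by
      rw [← Real.exp_nat_mul]
      have e4 : ((32 * g ^ 2 : ℕ) : ℝ) * ((1 / ((2 * g : ℕ) : ℝ)) ^ 2 * N / 8) = N * 1 := by
        push_cast
        field_simp
        ring
      rw [e4, Real.exp_nat_mul]
      refine pow_le_pow_left₀ (by norm_num) ?_ _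
      have := Real.add_one_le_exp (1 : ℝ)
      linarith
    refine le_of_pow_le_pow_left₀ (n := 32 * g ^ 2) ?_ (Real.exp_pos _).le (e1.trans e3)
    have : 0 < g ^ 2 := by positivity
    omega
  obtain ⟨ρ, hρ⟩ := general (N := N) (fun S : ι => par S.1) (fun S S' => S ≠ S')
    (fun _ h => h rfl) H (a := 1 / 2 + 1 / (2 * g)) (by positivity) (by
      have e1 : (1 : ℝ) ≤ g := by exact_mod_cast hg
      have e2 : (1 : ℝ) / (2 * g) ≤ 1 / 2 := by
        rw [div_le_div_iff₀ (by positivity) (by norm_num)]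
        linarith
      linarith) (R0 := g ^ 2) (e := 2 * g) (by omega) (Nat.one_le_pow _ _ hg)
    (fun h _ J _ hJ => by
      rw [← card_map (Function.Embedding.subtype _)]
      refine few_parities hg h _ fun S hS => ?_
      obtain ⟨S', hS', rfl⟩ := mem_map.1 hS
      exact hJ S' hS')
    (M := C) (by
      rw [hιc, sq]
      refine Nat.mul_le_mul_right _ ?_
      rw [← hιc, ← Nat.card_eq_fintype_card]
      refine Nat.card_le_card_of_injective (fun q => q.1.1) fun q q' h => ?_
      have e1 := not_not.1 q.2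
      have e2 := not_not.1 q'.2
      exact Subtype.ext (Prod.ext h (e1.symm.trans (h.trans e2))))
    (by
      calc 16 * (2 * g) * g ^ 2 = 32 * g ^ 3 := by ring
        _ ≤ N := hg3)
    hsmall μ Ω K W T a h1
    (fun ρ x hx => hno ρ x fun h hh => by
      have e1 := hx h hh
      have e2 : (1 / 2 + 1 / (2 * g) + 1 / ((2 * g : ℕ) : ℝ)) * N = (g + 2) * N / (2 * g) := by
        push_cast
        field_simp
        ring
      rw [e2, lt_div_iff₀ (by positivity)] at e1
      have e3 : (2 * g * agr h x : ℝ) < (g + 2) * N := by linarith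
      exact_mod_cast e3)
    (fun P => hyes P.1.1 P.1.2 _ fun _ => rfl)
  refine ⟨ρ, hρ.trans ?_⟩
  obtain ⟨w, hw⟩ : ∃ w, w = Fintype.card (W ρ) := ⟨_, rfl⟩
  rw [← hw] at hρ ⊢
  have hw1 : 1 ≤ w := by
    rcases Nat.eq_zero_or_pos w with h0 | h0
    · rw [h0, mul_zero, mul_zero, zero_pow (by positivity)] at hρ
      omega
    · exact h0
  have e1 : 2 ^ 8 * (2 * g) * g ^ 2 * (2 ^ μ * w) ≤ (2 ^ 3 * g * 2 ^ μ * w) ^ 3 := by
    obtain ⟨Z, hZ⟩ : ∃ Z, Z = 2 ^ μ * w := ⟨_, rfl⟩
    have hZ1 : 1 ≤ Z := by rw [hZ]; exact Nat.mul_pos (Nat.pow_pos (by norm_num)) hw1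
    have e2 : 2 ^ 3 * g * 2 ^ μ * w = 2 ^ 3 * g * Z := by rw [hZ]; ring
    rw [← hZ, e2]
    calc 2 ^ 8 * (2 * g) * g ^ 2 * Z = 2 ^ 9 * g ^ 3 * Z := by ring
      _ ≤ 2 ^ 9 * g ^ 3 * Z ^ 3 := Nat.mul_le_mul_left _ (Nat.le_self_pow (by norm_num) _)
      _ = _ := by ring
  calc (2 ^ 8 * (2 * g) * g ^ 2 * (2 ^ μ * w)) ^ (2 ^ 9 * (2 * g) * g ^ 2) ≤
      ((2 ^ 3 * g * 2 ^ μ * w) ^ 3) ^ (2 ^ 9 * (2 * g) * g ^ 2) := Nat.pow_le_pow_left e1 _
    _ = (2 ^ 3 * g * 2 ^ μ * w) ^ (3 * (2 ^ 10 * g ^ 3)) := by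
        rw [← pow_mul]
        congr 1
        ring
    _ ≤ (2 ^ 12 * g * 2 ^ μ * w) ^ (3 * (2 ^ 10 * g ^ 3)) := by
        refine Nat.pow_le_pow_left ?_ _
        refine Nat.mul_le_mul_right _ (Nat.mul_le_mul_right _ (Nat.mul_le_mul_right _ ?_))
        norm_num
    _ ≤ _ := by
        refine Nat.pow_le_pow_right ?_ ?_
        · have : 0 < 2 ^ 12 * g * 2 ^ μ * w := by positivity
          exact this
        · have : 2 ^ 12 * g ^ 3 = 4 * (2 ^ 10 * g ^ 3) := by ring
          omega

/-- The upper bound: a network which counts the functions of a family which are consistent with the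
sample. -/
theorem upper_class {X : Type} (Q : (X → Bool) → Prop) [Fintype {f : X → Bool // Q f}] {N : ℕ}
    (hN : 1 ≤ N) :
    ∃ (T : Net ℚ (Fin N) (X × Bool) {f : X → Bool // Q f}) (a : {f : X → Bool // Q f} → ℚ),
      T.Linear ∧ (∀ i, T.reads i = 1) ∧ T.size = 2 * N - 1 ∧
        ∀ x, T.value a x = (Nat.card {f : {f : X → Bool // Q f} //
          ∀ i, (x i).2 = f.1 (x i).1} : ℚ) := by
  classical
  have : Nonempty (Fin N) := ⟨⟨0, hN⟩⟩
  obtain ⟨T, h1, h2, h3, h4⟩ := exists_product (K := ℚ)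
    (fun (_ : Fin N) (ω : X × Bool) (f : {f : X → Bool // Q f}) =>
      if ω.2 = f.1 ω.1 then (1 : ℚ) else 0)
  refine ⟨T, fun _ => 1, h1, h2, ?_, fun x => ?_⟩
  · rw [h3, Fintype.card_fin]
  · have h5 : ∀ f : {f : X → Bool // Q f}, T.eval x f =
        if ∀ i, (x i).2 = f.1 (x i).1 then 1 else 0 := by
      intro f
      rw [h4]
      by_cases hf : ∀ i, (x i).2 = f.1 (x i).1
      · rw [if_pos hf]
        exact prod_eq_one fun i _ => if_pos (hf i)
      · rw [if_neg hf]
        push Not at hf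
        obtain ⟨i, hi⟩ := hf
        exact prod_eq_zero (mem_univ i) (if_neg hi)
    unfold Net.value
    rw [Nat.card_eq_fintype_card, Fintype.card_subtype, card_filter]
    push_cast
    refine sum_congr rfl fun f _ => ?_
    rw [h5, one_mul]

end Pool.Agent.V11163.LR
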