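import Pool.Agent.V11163.LR.Core

/-!
# Read-once tensor networks which refute a class of hypotheses
-/

set_option autoImplicit false

open Finset

namespace Pool.Agent.V11163.LR

open Pool.Agent.TH700.PA (Net mixp rand_density card_comp)

variable {X ι : Type} {N t : ℕ}

variable [Fintype X] [Nonempty X]

/-- The number of agreements on a mixture. -/
theorem sum_pts (φ : ι → X → Bool) (Far : ι → ι → Prop) (hirr : ∀ i, ¬ Far i i)
    {a : ℝ} (ha0 : 0 ≤ a) {R0 e θ : ℕ} (he : 1 ≤ e) (h : X → Bool)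
    (hR : ∀ J : Finset ι, (∀ i ∈ J, ∀ i' ∈ J, i ≠ i' → Far i i') →
      (∀ i ∈ J, a * Fintype.card X < pts h (φ i)) → J.card ≤ R0)
    (hθ : 16 * e * R0 * θ ≤ N) (p : Fin N → Fin t)
    (hp : ∀ j, (univ.filter (fun v => p v = j)).card ≤ 2 * θ) (τ : Fin t → ι)
    (hτ : ∀ j j', j ≠ j' → Far (τ j) (τ j')) :
    (∑ i, (pts h (φ (τ (p i))) : ℝ)) ≤ ((a + 1 / e / 8) * N) * Fintype.card X := by
  classical
  have hX : (0 : ℝ) < Fintype.card X := by exact_mod_cast Fintype.card_pos
  obtain ⟨J, hJ⟩ : ∃ J, J = univ.filter (fun j : Fin t => a * Fintype.card X < pts h (φ (τ j))) :=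
    ⟨_, rfl⟩
  have hinj : Function.Injective τ := by
    intro j j' hjj
    by_contra hne
    have := hτ j j' hne
    rw [hjj] at this
    exact hirr _ this
  have hJc : J.card ≤ R0 := by
    rw [← card_image_of_injective J hinj]
    refine hR _ (fun i hi i' hi' hne => ?_) (fun i hi => ?_)
    · obtain ⟨j, -, rfl⟩ := mem_image.1 hi
      obtain ⟨j', -, rfl⟩ := mem_image.1 hi'
      exact hτ j j' fun h => hne (by rw [h])
    · obtain ⟨j, hj, rfl⟩ := mem_image.1 hi
      rw [hJ] at hj
      exact (mem_filter.1 hj).2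
  have h1 : ∀ i : Fin N, (pts h (φ (τ (p i))) : ℝ) ≤
      a * Fintype.card X + (if p i ∈ J then 1 else 0) * Fintype.card X := by
    intro i
    by_cases hi : p i ∈ J
    · rw [if_pos hi, one_mul]
      have h2 : (pts h (φ (τ (p i))) : ℝ) ≤ Fintype.card X := by
        exact_mod_cast card_le_univ _
      have h3 : 0 ≤ a * Fintype.card X := by positivity
      linarith
    · rw [if_neg hi, zero_mul, add_zero]
      rw [hJ, mem_filter, not_and, not_lt] at hi
      exact hi (mem_univ _)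
  have h2 : (univ.filter (fun i => p i ∈ J)).card ≤ 2 * θ * R0 := by
    have e1 : (univ.filter (fun i => p i ∈ J)).card ≤
        ∑ j ∈ J, (univ.filter (fun i => p i = j)).card := by
      have e0 := card_eq_sum_card_fiberwise (s := univ.filter (fun i => p i ∈ J)) (f := p)
        (t := J) (fun i hi => by simpa using hi)
      rw [e0]
      refine sum_le_sum fun j _ => card_le_card fun i hi => ?_
      exact mem_filter.2 ⟨mem_univ _, (mem_filter.1 hi).2⟩
    refine e1.trans ?_
    calc ∑ j ∈ J, (univ.filter (fun i => p i = j)).card ≤ ∑ _j ∈ J, 2 * θ :=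
          sum_le_sum fun j _ => hp j
      _ = J.card * (2 * θ) := by rw [sum_const, smul_eq_mul]
      _ ≤ R0 * (2 * θ) := Nat.mul_le_mul_right _ hJc
      _ = _ := by ring
  have he0 : (0 : ℝ) < e := by exact_mod_cast he
  have h3 : ((univ.filter (fun i => p i ∈ J)).card : ℝ) ≤ 1 / e / 8 * N := by
    have e2 : ((univ.filter (fun i => p i ∈ J)).card : ℝ) ≤ 2 * θ * R0 := by exact_mod_cast h2
    have e3 : (16 : ℝ) * e * R0 * θ ≤ N := by exact_mod_cast hθ
    refine e2.trans ?_
    rw [div_div, one_div, ← div_eq_inv_mul, le_div_iff₀ (by positivity)]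
    linarith
  calc (∑ i, (pts h (φ (τ (p i))) : ℝ)) ≤
      ∑ i : Fin N, (a * Fintype.card X + (if p i ∈ J then 1 else 0) * Fintype.card X) :=
        sum_le_sum fun i _ => h1 i
    _ = (a * N + ((univ.filter (fun i => p i ∈ J)).card : ℝ)) * Fintype.card X := by
        have e5 : ∑ i : Fin N, (if p i ∈ J then (1 : ℝ) else 0) * Fintype.card X =
            ((univ.filter (fun i => p i ∈ J)).card : ℝ) * Fintype.card X := by
          rw [← sum_mul, sum_boole]
        rw [sum_add_distrib, e5, sum_const, card_univ, Fintype.card_fin, nsmul_eq_mul]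
        ring
    _ ≤ (a * N + 1 / e / 8 * N) * Fintype.card X := by
        refine mul_le_mul_of_nonneg_right ?_ hX.le
        linarith
    _ = _ := by ring

variable [Fintype ι] [Nonempty ι]

open Classical in
/-- The tuples with two functions which are not far from each other. -/
theorem card_notfar (Far : ι → ι → Prop) {M : ℕ}
    (hfar : (univ.filter (fun q : ι × ι => ¬ Far q.1 q.2)).card * M ≤ Fintype.card ι ^ 2)
    {Y : Type} [Fintype Y] [Nonempty Y] {j j' : Fin t} (hj : j ≠ j') :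
    (univ.filter (fun b : Fin t → ι × Y => ¬ Far (b j).1 (b j').1)).card * M ≤
      Fintype.card (ι × Y) ^ t := by
  classical
  obtain ⟨u, hu⟩ : ∃ u, u = Fintype.card (ι × Y) := ⟨_, rfl⟩
  have hu0 : 0 < u := by rw [hu]; exact Fintype.card_pos
  obtain ⟨B, hB⟩ : ∃ B : Finset (Fin 2 → ι × Y), B = univ.filter (fun G => ¬ Far (G 0).1 (G 1).1) :=
    ⟨_, rfl⟩
  obtain ⟨f, hf0, hf1⟩ : ∃ f : Fin 2 → Fin t, f 0 = j ∧ f 1 = j' := ⟨![j, j'], rfl, rfl⟩
  have hb : Function.Injective f := by
    intro x y hxy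
    fin_cases x <;> fin_cases y
    · rfl
    · exact absurd (hf0.symm.trans (hxy.trans hf1)) hj
    · exact absurd (hf1.symm.trans (hxy.trans hf0)).symm hj
    · rfl
  have h1 := card_comp (U := ι × Y) hb B
  have h2 : (univ.filter (fun F : Fin t → ι × Y => F ∘ f ∈ B)).card =
      (univ.filter (fun b : Fin t → ι × Y => ¬ Far (b j).1 (b j').1)).card := by
    refine congrArg card (filter_congr fun F _ => ?_)
    rw [hB, mem_filter, Function.comp_apply, Function.comp_apply, hf0, hf1]
    exact ⟨fun h => h.2, fun h => ⟨mem_univ _, h⟩⟩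
  have h1' : (univ.filter (fun b : Fin t → ι × Y => ¬ Far (b j).1 (b j').1)).card * u ^ 2 =
      B.card * u ^ t := by
    rw [← h2, hu]
    convert h1
  have h3 : B.card ≤ (univ.filter (fun q : ι × ι => ¬ Far q.1 q.2)).card *
      Fintype.card (Y × Y) := by
    rw [← card_univ, ← card_product]
    refine card_le_card_of_injOn (fun G => (((G 0).1, (G 1).1), ((G 0).2, (G 1).2)))
      (fun G hG => ?_) (fun G _ G' _ h => ?_)
    · rw [mem_coe, hB] at hG
      rw [mem_coe, mem_product]
      exact ⟨mem_filter.2 ⟨mem_univ _, (mem_filter.1 hG).2⟩, mem_univ _⟩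
    · have e1 := congrArg (fun r => r.1.1) h
      have e2 := congrArg (fun r => r.1.2) h
      have e3 := congrArg (fun r => r.2.1) h
      have e4 := congrArg (fun r => r.2.2) h
      funext i
      fin_cases i
      · exact Prod.ext e1 e3
      · exact Prod.ext e2 e4
  have h4 : B.card * M ≤ u ^ 2 := by
    calc B.card * M ≤ ((univ.filter (fun q : ι × ι => ¬ Far q.1 q.2)).card *
      Fintype.card (Y × Y)) * M := Nat.mul_le_mul_right _ h3
      _ = ((univ.filter (fun q : ι × ι => ¬ Far q.1 q.2)).card * M) *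
          Fintype.card (Y × Y) := by ring
      _ ≤ Fintype.card ι ^ 2 * Fintype.card (Y × Y) := Nat.mul_le_mul_right _ hfar
      _ = _ := by rw [hu, Fintype.card_prod, Fintype.card_prod]; ring
  rw [← hu]
  refine Nat.le_of_mul_le_mul_left (c := u ^ 2) ?_ (Nat.pow_pos hu0)
  calc u ^ 2 * ((univ.filter (fun b : Fin t → ι × Y => ¬ Far (b j).1 (b j').1)).card * M) =
      ((univ.filter (fun b : Fin t → ι × Y => ¬ Far (b j).1 (b j').1)).card * u ^ 2) * M := by ring
    _ = (B.card * M) * u ^ t := by rw [h1']; ring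
    _ ≤ u ^ 2 * u ^ t := Nat.mul_le_mul_right _ h4

/-- The bound for networks which refute the hypotheses of `H` and accept the samples of the
functions `φ i`. -/
theorem general (φ : ι → X → Bool) (Far : ι → ι → Prop) (hirr : ∀ i, ¬ Far i i)
    (H : Finset (X → Bool)) {a : ℝ} (ha0 : 0 ≤ a) (ha : a ≤ 1) {R0 e : ℕ} (he : 1 ≤ e)
    (hR0 : 1 ≤ R0)
    (hR : ∀ h ∈ H, ∀ J : Finset ι, (∀ i ∈ J, ∀ i' ∈ J, i ≠ i' → Far i i') →
      (∀ i ∈ J, a * Fintype.card X < pts h (φ i)) → J.card ≤ R0)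
    {M : ℕ} (hfar : Nat.card {q : ι × ι // ¬ Far q.1 q.2} * M ≤ Fintype.card ι ^ 2)
    (hN : 16 * e * R0 ≤ N)
    (hsmall : 2 * (H.card : ℝ) * M ≤ Real.exp ((1 / e : ℝ) ^ 2 * N / 8))
    (μ : ℕ) (Ω : Type) [Fintype Ω] [Nonempty Ω] (K W : Ω → Type) [∀ ρ, Field (K ρ)]
    [∀ ρ, Fintype (W ρ)] (T : ∀ ρ, Net (K ρ) (Fin N) (X × Bool) (W ρ)) (c : ∀ ρ, W ρ → K ρ)
    (h1 : ∀ ρ v, (T ρ).reads v ≤ 1)
    (hno : ∀ ρ x, (∀ h ∈ H, (agr h x : ℝ) < (a + 1 / e) * N) → (T ρ).value (c ρ) x = 0)
    (hyes : ∀ P : ι × (Fin N → X),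
      Nat.card Ω ≤ 2 ^ μ * Nat.card {ρ // (T ρ).value (c ρ) (smp φ P) ≠ 0}) :
    ∃ ρ, M ≤ (2 ^ 8 * e * R0 * (2 ^ μ * Fintype.card (W ρ))) ^ (2 ^ 9 * e * R0) := by
  classical
  have he0 : (0 : ℝ) < e := by exact_mod_cast he
  obtain ⟨θ, hθ⟩ : ∃ θ, θ = N / (16 * e * R0) := ⟨_, rfl⟩
  have hD : 0 < 16 * e * R0 := by positivity
  have hθ1 : 1 ≤ θ := by
    rw [hθ]
    exact Nat.div_pos hN hD
  have hθN : 16 * e * R0 * θ ≤ N := by
    rw [hθ]
    exact Nat.mul_div_le N _
  have hNθ : N < 16 * e * R0 * (θ + 1) := by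
    rw [hθ]
    exact Nat.lt_mul_div_succ N hD
  obtain ⟨t, ht⟩ : ∃ t, t = 64 * e * R0 + 1 := ⟨_, rfl⟩
  have ht1 : 1 ≤ t := by omega
  have hE : 2 * Fintype.card (Fin N) + θ ≤ θ * t := by
    rw [Fintype.card_fin, ht]
    obtain ⟨D, hDD⟩ : ∃ D, D = 16 * e * R0 := ⟨_, rfl⟩
    rw [← hDD] at hNθ
    have e1 : 64 * e * R0 = 4 * D := by rw [hDD]; ring
    rw [e1]
    have e2 : D * (θ + 1) ≤ D * (2 * θ) := Nat.mul_le_mul_left _ (by omega)
    have e3 : D * (2 * θ) = 2 * (θ * D) := by ring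
    have e4 : θ * (4 * D + 1) = 4 * (θ * D) + θ := by ring
    omega
  obtain ⟨u, hu⟩ : ∃ u, u = Fintype.card (ι × (Fin N → X)) := ⟨_, rfl⟩
  have hu0 : 0 < u := by rw [hu]; exact Fintype.card_pos
  have huR : (0 : ℝ) < u := by exact_mod_cast hu0
  obtain ⟨M0, hM0⟩ : ∃ M0, M0 = M / (2 * t ^ 2) := ⟨_, rfl⟩
  have hM0' : 2 * t ^ 2 * M0 ≤ M := by
    rw [hM0]
    exact Nat.mul_div_le M _
  have hM1 : M < 2 * t ^ 2 * (M0 + 1) := by
    rw [hM0]
    exact Nat.lt_mul_div_succ M (by positivity)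
  obtain ⟨E, hEE⟩ : ∃ E : ℝ, E = Real.exp (- ((1 / e : ℝ) ^ 2 * N / 8)) := ⟨_, rfl⟩
  have hE0 : 0 < E := by rw [hEE]; exact Real.exp_pos _
  have hfar' : (univ.filter (fun q : ι × ι => ¬ Far q.1 q.2)).card * M ≤ Fintype.card ι ^ 2 := by
    rw [Nat.card_eq_fintype_card, Fintype.card_subtype] at hfar
    exact hfar
  have he1 : (1 : ℝ) / e ≤ 1 := by
    rw [div_le_one he0]
    exact_mod_cast he
  obtain ⟨ρ, hρ, hw1⟩ := rand_density μ Ω K W T c h1 (θ := θ) (t := t)
    hθ1 ht1 hE (U := ι × (Fin N → X)) (smp φ)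
    (univ : Finset (ι × (Fin N → X))) (η := 0) (by rw [card_univ, pow_zero, one_mul])
    (fun P _ => hyes P) (N := M0) (fun ρ p hp => by
      obtain ⟨B1, hB1⟩ : ∃ B1 : Finset (Fin t → ι × (Fin N → X)), B1 =
        ((univ : Finset (Fin t)).offDiag).biUnion (fun q =>
          univ.filter (fun b : Fin t → ι × (Fin N → X) => ¬ Far (b q.1).1 (b q.2).1)) := ⟨_, rfl⟩
      obtain ⟨C, hC⟩ : ∃ C : (X → Bool) → Finset (Fin t → ι × (Fin N → X)), C = fun h =>
          univ.filter (fun b : Fin t → ι × (Fin N → X) =>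
            (∀ j j', j ≠ j' → Far (b j).1 (b j').1) ∧
            (a + 1 / e) * N ≤ agr h (mixp p (smp φ) b)) := ⟨_, rfl⟩
      have hB1c : B1.card * M ≤ t ^ 2 * u ^ t := by
        have e1 : B1.card * M ≤ (∑ q ∈ (univ : Finset (Fin t)).offDiag,
            (univ.filter (fun b : Fin t → ι × (Fin N → X) =>
              ¬ Far (b q.1).1 (b q.2).1)).card) * M := by
          refine Nat.mul_le_mul_right _ ?_
          rw [hB1]
          exact card_biUnion_le
        refine e1.trans ?_
        rw [sum_mul]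
        calc _ ≤ ∑ _q ∈ (univ : Finset (Fin t)).offDiag, u ^ t := by
              refine sum_le_sum fun q hq => ?_
              rw [hu]
              exact card_notfar Far hfar' (mem_offDiag.1 hq).2.2
          _ = (univ : Finset (Fin t)).offDiag.card * u ^ t := by rw [sum_const, smul_eq_mul]
          _ ≤ t ^ 2 * u ^ t := by
              refine Nat.mul_le_mul_right _ ?_
              rw [offDiag_card, card_univ, Fintype.card_fin, sq]
              exact Nat.sub_le _ _
      have hCc : ∀ h ∈ H, ((C h).card : ℝ) ≤ (u : ℝ) ^ t * E := by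
        intro h hh
        have e1 : (C h).card = ∑ τ : Fin t → ι,
            ((C h).filter (fun b => (fun j => (b j).1) = τ)).card :=
          card_eq_sum_card_fiberwise
            (f := fun (b : Fin t → ι × (Fin N → X)) (j : Fin t) => (b j).1) (fun _ _ => mem_univ _)
        have e2 : ∀ τ : Fin t → ι, (((C h).filter (fun b => (fun j => (b j).1) = τ)).card : ℝ) ≤
            ((Fintype.card X : ℝ) ^ N) ^ t * E := by
          intro τ
          by_cases hτ : ∀ j j', j ≠ j' → Far (τ j) (τ j')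
          · have e3 : ((C h).filter (fun b => (fun j => (b j).1) = τ)).card ≤
                (univ.filter (fun ξ : Fin t → Fin N → X =>
                  (a + 1 / e) * N ≤ agr h (mixp p (smp φ) (fun j => (τ j, ξ j))))).card := by
              refine card_le_card_of_injOn (fun b j => (b j).2) (fun b hb => ?_)
                (fun b hb b' hb' h => ?_)
              · rw [mem_coe, mem_filter, hC, mem_filter] at hb
                obtain ⟨⟨-, -, hb1⟩, hb2⟩ := hb
                rw [mem_coe]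
                refine mem_filter.2 ⟨mem_univ _, ?_⟩
                have e4 : (fun j => (τ j, (b j).2)) = b := by
                  funext j
                  rw [← hb2]
                rw [e4]
                exact hb1
              · rw [mem_coe, mem_filter] at hb hb'
                funext j
                have h4 : (b j).1 = (b' j).1 :=
                  (congrFun hb.2 j).trans (congrFun hb'.2 j).symm
                exact Prod.ext h4 (congrFun h j)
            have e4 := tail φ p τ h ha0 ha (η := 1 / e) (by positivity) he1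
              (sum_pts φ Far hirr ha0 he h (hR h hh) hθN p hp τ hτ)
            rw [← hEE] at e4
            refine le_trans ?_ e4
            exact_mod_cast e3
          · have e3 : (C h).filter (fun b => (fun j => (b j).1) = τ) = ∅ := by
              rw [filter_eq_empty_iff]
              intro b hb hb2
              rw [hC, mem_filter] at hb
              apply hτ
              rw [← hb2]
              exact hb.2.1
            rw [e3, card_empty, Nat.cast_zero]
            positivity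
        rw [e1]
        push_cast
        refine (sum_le_sum fun τ _ => e2 τ).trans (le_of_eq ?_)
        rw [sum_const, card_univ, Fintype.card_fun, Fintype.card_fin, nsmul_eq_mul, hu,
          Fintype.card_prod, Fintype.card_fun, Fintype.card_fin]
        push_cast
        rw [mul_pow]
        ring
      refine ⟨B1 ∪ H.biUnion C, fun b hb => ?_, ?_⟩
      · rw [mem_union]
        by_cases hf : ∀ j j', j ≠ j' → Far (b j).1 (b j').1
        · right
          by_contra hcon
          refine hb (hno ρ _ fun h hh => ?_)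
          by_contra hlt
          rw [not_lt] at hlt
          refine hcon (mem_biUnion.2 ⟨h, hh, ?_⟩)
          rw [hC]
          exact mem_filter.2 ⟨mem_univ _, hf, hlt⟩
        · left
          push Not at hf
          obtain ⟨j, j', hne, hnf⟩ := hf
          rw [hB1, mem_biUnion]
          exact ⟨(j, j'), mem_offDiag.2 ⟨mem_univ _, mem_univ _, hne⟩,
            mem_filter.2 ⟨mem_univ _, hnf⟩⟩
      · rw [← hu]
        have g1 : (2 * (B1.card * M0)) ≤ u ^ t := by
          refine Nat.le_of_mul_le_mul_left (c := t ^ 2) ?_ (by positivity)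
          calc t ^ 2 * (2 * (B1.card * M0)) = B1.card * (2 * t ^ 2 * M0) := by ring
            _ ≤ B1.card * M := Nat.mul_le_mul_left _ hM0'
            _ ≤ _ := hB1c
        have g2 : ((H.biUnion C).card : ℝ) ≤ H.card * ((u : ℝ) ^ t * E) := by
          have e1 : ((H.biUnion C).card : ℝ) ≤ ∑ h ∈ H, ((C h).card : ℝ) := by
            exact_mod_cast card_biUnion_le
          refine e1.trans ((sum_le_sum hCc).trans (le_of_eq ?_))
          rw [sum_const, nsmul_eq_mul]
        have hM0M : (M0 : ℝ) ≤ M := by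
          have : M0 ≤ M := by rw [hM0]; exact Nat.div_le_self _ _
          exact_mod_cast this
        have g3 : 2 * (((H.biUnion C).card : ℝ) * M0) ≤ (u : ℝ) ^ t := by
          have e3 : 2 * (H.card : ℝ) * M * E ≤ 1 := by
            rw [hEE, Real.exp_neg, ← div_eq_mul_inv, div_le_one (Real.exp_pos _)]
            exact hsmall
          calc 2 * (((H.biUnion C).card : ℝ) * M0) ≤
              2 * ((H.card * ((u : ℝ) ^ t * E)) * M) := by
                refine mul_le_mul_of_nonneg_left ?_ (by norm_num)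
                exact mul_le_mul g2 hM0M (Nat.cast_nonneg _) (by positivity)
            _ = (u : ℝ) ^ t * (2 * (H.card : ℝ) * M * E) := by ring
            _ ≤ (u : ℝ) ^ t * 1 := mul_le_mul_of_nonneg_left e3 (by positivity)
            _ = _ := mul_one _
        have g3' : 2 * ((H.biUnion C).card * M0) ≤ u ^ t := by exact_mod_cast g3
        have g4 : (B1 ∪ H.biUnion C).card * M0 ≤ (B1.card + (H.biUnion C).card) * M0 :=
          Nat.mul_le_mul_right _ (card_union_le _ _)
        rw [add_mul] at g4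
        omega)
  refine ⟨ρ, ?_⟩
  obtain ⟨w, hw⟩ : ∃ w, w = Fintype.card (W ρ) := ⟨_, rfl⟩
  rw [← hw] at hρ hw1 ⊢
  obtain ⟨Z, hZ⟩ : ∃ Z, Z = 2 ^ μ * w := ⟨_, rfl⟩
  have hZ1 : 1 ≤ Z := by
    rw [hZ]
    exact Nat.mul_pos (Nat.pow_pos (by norm_num)) hw1
  rw [← hZ]
  have hpos : 1 ≤ 2 ^ (μ + 0 + 1) * (t * w ^ 3) :=
    Nat.mul_pos (Nat.pow_pos (by norm_num)) (Nat.mul_pos ht1 (Nat.pow_pos hw1))
  have e1 : 2 ^ (μ + 0 + 1) * (t * w ^ 3) ≤ (2 * t) * Z ^ 3 := by
    have e2 : Z ^ 3 = 2 ^ (3 * μ) * w ^ 3 := by rw [hZ, mul_pow, ← pow_mul, mul_comm μ 3]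
    rw [e2]
    calc 2 ^ (μ + 0 + 1) * (t * w ^ 3) = (2 * t) * (2 ^ μ * w ^ 3) := by
          rw [add_zero, pow_succ]; ring
      _ ≤ (2 * t) * (2 ^ (3 * μ) * w ^ 3) :=
          Nat.mul_le_mul_left _ (Nat.mul_le_mul_right _
            (Nat.pow_le_pow_right (by norm_num) (by omega)))
  have e3 : M ≤ (2 * t) ^ 2 * ((2 * t) * Z ^ 3) ^ (t + 1) := by
    have e4 : M0 + 1 ≤ 2 * ((2 * t) * Z ^ 3) ^ (t + 1) := by
      have e5 := hρ.trans (Nat.pow_le_pow_left e1 (t + 1))
      have e6 : 1 ≤ ((2 * t) * Z ^ 3) ^ (t + 1) :=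
        Nat.pow_pos (Nat.mul_pos (by omega) (Nat.pow_pos hZ1))
      omega
    calc M ≤ 2 * t ^ 2 * (M0 + 1) := hM1.le
      _ ≤ 2 * t ^ 2 * (2 * ((2 * t) * Z ^ 3) ^ (t + 1)) := Nat.mul_le_mul_left _ e4
      _ = _ := by ring
  have hk1 : 1 ≤ e * R0 := Nat.mul_pos he hR0
  have e7 : 2 * t ≤ 2 ^ 8 * e * R0 := by
    have : 64 * e * R0 = 64 * (e * R0) := by ring
    have h2 : 2 ^ 8 * e * R0 = 256 * (e * R0) := by ring
    rw [h2]
    omega
  have e8 : (2 * t) ^ 2 * ((2 * t) * Z ^ 3) ^ (t + 1) ≤ (2 ^ 8 * e * R0 * Z) ^ (3 * (t + 1)) := by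
    obtain ⟨s, hs⟩ : ∃ s, s = 2 * t := ⟨_, rfl⟩
    rw [← hs] at e7 ⊢
    calc s ^ 2 * (s * Z ^ 3) ^ (t + 1) = s ^ (t + 3) * Z ^ (3 * (t + 1)) := by
          rw [mul_pow s (Z ^ 3), ← pow_mul Z 3]
          ring
      _ ≤ s ^ (3 * (t + 1)) * Z ^ (3 * (t + 1)) :=
          Nat.mul_le_mul_right _ (Nat.pow_le_pow_right (by omega) (by omega))
      _ = (s * Z) ^ (3 * (t + 1)) := by rw [mul_pow s Z]
      _ ≤ _ := Nat.pow_le_pow_left (Nat.mul_le_mul_right _ e7) _
  refine e3.trans (e8.trans (Nat.pow_le_pow_right ?_ ?_))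
  · have : 0 < 2 ^ 8 * e * R0 * Z := by positivity
    exact this
  · rw [ht]
    have : 64 * e * R0 = 64 * (e * R0) := by ring
    have h2 : 2 ^ 9 * e * R0 = 512 * (e * R0) := by ring
    rw [h2]
    omega

end Pool.Agent.V11163.LR
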