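import Pool.Agent.V11163.LR.Main

/-!
# Parities: orthogonality and the number of parities correlated with a given function
-/

set_option autoImplicit false

open Finset

namespace Pool.Agent.V11163.LR

variable {n : ℕ}

/-- The parity of the coordinates in `S`. -/
def par (S : Finset (Fin n)) (x : Fin n → Bool) : Bool :=
  decide ((S.filter (fun i => x i = true)).card % 2 = 1)

/-- The sign. -/
def sg (b : Bool) : ℝ := if b then -1 else 1

theorem sg_mul_self (b : Bool) : sg b * sg b = 1 := by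
  cases b <;> norm_num [sg]

theorem sg_par (S : Finset (Fin n)) (x : Fin n → Bool) : sg (par S x) = ∏ i ∈ S, sg (x i) := by
  have h1 : ∏ i ∈ S, sg (x i) = (-1) ^ (S.filter (fun i => x i = true)).card := by
    unfold sg
    rw [prod_ite, prod_const_one, mul_one, prod_const]
  rw [h1]
  unfold par sg
  rcases Nat.mod_two_eq_zero_or_one (S.filter (fun i => x i = true)).card with h | h
  · rw [h]
    norm_num
    exact (Even.neg_one_pow (Nat.even_iff.2 h)).symm
  · rw [h]
    norm_num
    exact (Odd.neg_one_pow (Nat.odd_iff.2 h)).symm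

/-- Orthogonality. -/
theorem orth {S S' : Finset (Fin n)} (h : S ≠ S') :
    ∑ x : Fin n → Bool, sg (par S x) * sg (par S' x) = 0 := by
  classical
  have h1 : ∀ x : Fin n → Bool, sg (par S x) * sg (par S' x) =
      ∏ i, ((if i ∈ S then sg (x i) else 1) * (if i ∈ S' then sg (x i) else 1)) := by
    intro x
    rw [sg_par, sg_par, prod_mul_distrib, prod_ite_mem, prod_ite_mem, univ_inter, univ_inter]
  rw [sum_congr rfl fun x _ => h1 x,
    ← Fintype.prod_sum (fun (i : Fin n) (b : Bool) =>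
      ((if i ∈ S then sg b else 1) * (if i ∈ S' then sg b else 1)))]
  obtain ⟨i, hi⟩ : ∃ i, ¬ (i ∈ S ↔ i ∈ S') := by
    by_contra hcon
    push Not at hcon
    exact h (Finset.ext hcon)
  refine prod_eq_zero (mem_univ i) ?_
  rw [Fintype.sum_bool]
  by_cases h1 : i ∈ S <;> by_cases h2 : i ∈ S'
  · exact absurd (iff_of_true h1 h2) hi
  · rw [if_pos h1, if_pos h1, if_neg h2]
    norm_num [sg]
  · rw [if_neg h1, if_pos h2, if_pos h2]
    norm_num [sg]
  · exact absurd (iff_of_false h1 h2) hi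

theorem sum_sg (h f : (Fin n → Bool) → Bool) :
    ∑ x, sg (h x) * sg (f x) = 2 * pts h f - 2 ^ n := by
  have h1 : ∀ x, sg (h x) * sg (f x) = 2 * (if h x = f x then 1 else 0) - 1 := by
    intro x
    cases h x <;> cases f x <;> norm_num [sg]
  rw [sum_congr rfl fun x _ => h1 x, sum_sub_distrib, ← mul_sum, sum_boole, sum_const, card_univ,
    Fintype.card_fun, Fintype.card_bool, Fintype.card_fin]
  unfold pts
  norm_num

/-- At most `g ^ 2` parities agree with `h` at more than a fraction `1 / 2 + 1 / (2 g)` of the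
points. -/
theorem few_parities {g : ℕ} (hg : 1 ≤ g) (h : (Fin n → Bool) → Bool)
    (J : Finset (Finset (Fin n)))
    (hJ : ∀ S ∈ J, (1 / 2 + 1 / (2 * g) : ℝ) * Fintype.card (Fin n → Bool) < pts h (par S)) :
    J.card ≤ g ^ 2 := by
  classical
  have hg0 : (0 : ℝ) < g := by exact_mod_cast hg
  obtain ⟨q, hq⟩ : ∃ q : ℝ, q = 2 ^ n := ⟨_, rfl⟩
  have hq0 : 0 < q := by rw [hq]; positivity
  have hc : (Fintype.card (Fin n → Bool) : ℝ) = q := by
    rw [Fintype.card_fun, Fintype.card_bool, Fintype.card_fin, hq]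
    norm_num
  rw [hc] at hJ
  -- the sum of the correlations
  have h1 : (J.card : ℝ) * (q / g) ≤ ∑ x, sg (h x) * ∑ S ∈ J, sg (par S x) := by
    have e1 : ∑ x, sg (h x) * ∑ S ∈ J, sg (par S x) =
        ∑ S ∈ J, ∑ x, sg (h x) * sg (par S x) := by
      simp only [mul_sum]
      exact sum_comm
    rw [e1, ← nsmul_eq_mul, ← sum_const]
    refine sum_le_sum fun S hS => ?_
    rw [sum_sg, ← hq]
    have e2 := hJ S hS
    have e3 : 2 * ((1 / 2 + 1 / (2 * g) : ℝ) * q) = q + q / g := by
      field_simp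
    linarith
  have h2 : (∑ x, sg (h x) * ∑ S ∈ J, sg (par S x)) ^ 2 ≤
      (∑ x, sg (h x) ^ 2) * ∑ x, (∑ S ∈ J, sg (par S x)) ^ 2 :=
    sum_mul_sq_le_sq_mul_sq _ _ _
  have h3 : ∑ x : Fin n → Bool, sg (h x) ^ 2 = q := by
    have e1 : ∀ x : Fin n → Bool, sg (h x) ^ 2 = 1 := fun x => by rw [sq, sg_mul_self]
    rw [sum_congr rfl fun x _ => e1 x, sum_const, card_univ, nsmul_eq_mul, mul_one, hc]
  have h4 : ∑ x : Fin n → Bool, (∑ S ∈ J, sg (par S x)) ^ 2 = J.card * q := by
    have e1 : ∀ x : Fin n → Bool, (∑ S ∈ J, sg (par S x)) ^ 2 =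
        ∑ S ∈ J, ∑ S' ∈ J, sg (par S x) * sg (par S' x) := fun x => by
      rw [sq, sum_mul_sum]
    rw [sum_congr rfl fun x _ => e1 x, sum_comm]
    have e2 : ∀ S ∈ J, ∑ x : Fin n → Bool, ∑ S' ∈ J, sg (par S x) * sg (par S' x) = q := by
      intro S hS
      rw [sum_comm, sum_eq_single_of_mem S hS fun S' _ hne => orth hne.symm]
      rw [sum_congr rfl fun x _ => sg_mul_self _, sum_const, card_univ, nsmul_eq_mul, mul_one, hc]
    rw [sum_congr rfl e2, sum_const, nsmul_eq_mul]
  rw [h3, h4] at h2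
  have h5 : ((J.card : ℝ) * (q / g)) ^ 2 ≤ q * (J.card * q) :=
    le_trans (pow_le_pow_left₀ (by positivity) h1 2) h2
  have h6 : (J.card : ℝ) ≤ (g : ℝ) ^ 2 := by
    rcases Nat.eq_zero_or_pos J.card with h0 | h0
    · rw [h0, Nat.cast_zero]
      positivity
    · have hJ0 : (0 : ℝ) < J.card := by exact_mod_cast h0
      have e1 : ((J.card : ℝ) * (q / g)) ^ 2 = (J.card * q ^ 2 / g ^ 2) * J.card := by
        field_simp
      have e2 : q * (J.card * q) = q ^ 2 * J.card := by ring
      rw [e1, e2] at h5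
      have e3 := le_of_mul_le_mul_right h5 hJ0
      rw [div_le_iff₀ (by positivity)] at e3
      have e4 : (J.card : ℝ) * q ^ 2 ≤ (g : ℝ) ^ 2 * q ^ 2 := by linarith
      exact le_of_mul_le_mul_right e4 (by positivity)
  exact_mod_cast h6

end Pool.Agent.V11163.LR
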